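import Mathlib
import Pool.Agent.H8.Dist.Left

/-!
# Distributive domains with finitely many wild zeros are semihereditary

Partial answer to Q1 of MP_b53a41_al.

For a maximal one-sided ideal `M` of a left and right distributive domain `A` (it is two-sided)
let `V_M` be the localization.  Call `M` tame if for every maximal ideal `N`, all `s ∉ M` and
`t ∉ N` the right ideal `s t A` contains a product `t' s'` with `t' ∉ N` and `s' ∉ M`
(in terms of localizations: `V_N V_M ⊆ V_M V_N` for all `N`), and wild otherwise.
If every nonzero element of `A` lies in only finitely many wild maximal ideals, then `A` is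
semihereditary.

Idea of the proof.  Let `J` be a finitely generated right `A`-submodule of the division ring of
fractions and `Z` the closed set of all `M` with `1 ∉ J V_M`.  One looks for `l` in `A`,
`l J ⊆ A`, `l ≡ 1` modulo all `M ∈ Z`, such that `l⁻¹ ∈ A + J V_M` for all `M ∈ Z`; then
`l⁻¹ = a + z` and `ψ = a l` satisfies `ψ J ⊆ A`, `1 - ψ ∈ J`.  For tame `M` every `l` will do, and
for every other `M` there is, because the right `V_M`-submodules form a chain and the maximal
spectrum is quasi-compact, one single maximal ideal `N ∉ Z` such that every `l` with `l J ⊄ N` will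
do.  The projectivity of all finitely generated right ideals follows by induction on the number of
generators, that of the left ideals by a form of the theorem of Small.
-/

universe u

namespace Pool.Agent.Results.MP_b53a41_al.FiniteWild

open Pool.Agent.H8.Dist

/-- Let `A` be a domain, left and right distributive.  Suppose that every nonzero `a` in `A` lies
in only finitely many maximal (left) ideals `M` of `A` for which there are a maximal (left) ideal
`N`, an element `s ∉ M` and an element `t ∉ N` such that the right ideal `s t A` contains no product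
`t' s'` with `t' ∉ N` and `s' ∉ M`.  Then all finitely generated left ideals and all finitely
generated right ideals of `A` are projective. -/
theorem result (A : Type u) [Ring A] [IsDomain A]
    (hl : ∀ a b c : Submodule A A, a ⊓ (b ⊔ c) = (a ⊓ b) ⊔ (a ⊓ c))
    (hr : ∀ a b c : Submodule Aᵐᵒᵖ A, a ⊓ (b ⊔ c) = (a ⊓ b) ⊔ (a ⊓ c))
    (hfin : ∀ a : A, a ≠ 0 → {M : Ideal A | M.IsMaximal ∧ a ∈ M ∧
      ∃ N : Ideal A, N.IsMaximal ∧ ∃ s, s ∉ M ∧ ∃ t, t ∉ N ∧
        ∀ t' s' c : A, t' ∉ N → s' ∉ M → t' * s' ≠ s * t * c}.Finite) :
    (∀ I : Submodule A A, I.FG → Module.Projective A I) ∧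
    (∀ I : Submodule Aᵐᵒᵖ A, I.FG → Module.Projective Aᵐᵒᵖ I) := by
  have hL := LD_of_lattice hl
  have hR := RD_of_lattice hr
  have hfin' : FinWild A := by
    intro a ha
    refine ((hfin a ha).image (fun M : Ideal A => (M : Set A))).subset ?_
    rintro M ⟨hM, haM, hT⟩
    obtain ⟨M', hM', hmax⟩ := isMaximal_of_isRes hM
    refine ⟨M', ⟨hmax, ?_, ?_⟩, hM'⟩
    · rw [← hM'] at haM
      exact haM
    · unfold Tame at hT
      push Not at hT
      obtain ⟨N, hN, s, hs, t, ht, h⟩ := hT
      obtain ⟨N', hN', hmaxN⟩ := isMaximal_of_isRes hN
      refine ⟨N', hmaxN, s, ?_, t, ?_, ?_⟩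
      · intro hs'
        apply hs
        rw [← hM']
        exact hs'
      · intro ht'
        apply ht
        rw [← hN']
        exact ht'
      · intro t' s' c ht' hs'
        refine h t' ?_ s' ?_ c
        · rw [← hN']
          exact ht'
        · rw [← hM']
          exact hs'
  obtain ⟨D, _, ι, hι⟩ := exists_divisionRing hL
  have hDB : ∀ {n : ℕ} (a : Fin n → A), DB ι a := DB_all ι hι hR hL hfin'
  constructor
  · intro I hI
    obtain ⟨n, b, rfl⟩ := Submodule.fg_iff_exists_fin_generating_family.1 hI
    exact proj_left ι hι b (DBl_all ι hι hR hL hDB b)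
  · intro I hI
    obtain ⟨n, b, rfl⟩ := Submodule.fg_iff_exists_fin_generating_family.1 hI
    exact proj_right ι hι b (hDB b)

end Pool.Agent.Results.MP_b53a41_al.FiniteWild
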